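import Pool.Agent.P8H41.PK.Stm

/-! Project PK, package CLOSE. -/

set_option autoImplicit false

namespace Pool.Agent.P8H69.PK

open Finset
open Pool.Agent.P8H41.PK

lemma tl_nonneg (M x : ℝ) : 0 ≤ tl M x := by
  unfold tl
  split_ifs
  · exact le_rfl
  · exact sq_nonneg x

lemma sq_le_tl {M : ℝ} (hM : 0 < M) (x : ℝ) : x ^ 2 ≤ M ^ 2 + tl M x := by
  unfold tl
  split_ifs with h
  · rw [add_zero]
    exact sq_le_sq' (abs_le.1 h).1 (abs_le.1 h).2
  · nlinarith

lemma all_case {M : ℝ} (hM : 0 < M) (x g : ℝ) :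
    (x - g) ^ 2 ≤ 4 * M ^ 2 + 2 * tl M x + 2 * tl M g := by
  have h1 := sq_le_tl hM x
  have h2 := sq_le_tl hM g
  nlinarith [sq_nonneg (x + g)]

lemma low_case {M x g : ℝ} (hM : 0 < M) (hx : x ≤ -M) (hg : g ≤ -M) :
    (x - g) ^ 2 ≤ tl M x + tl M g := by
  by_cases h1 : |x| ≤ M
  · have hxM : x = -M := le_antisymm hx (abs_le.1 h1).1
    by_cases h2 : |g| ≤ M
    · have hgM : g = -M := le_antisymm hg (abs_le.1 h2).1
      rw [hxM, hgM, sub_self]
      have := tl_nonneg M (-M)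
      nlinarith
    · have e1 : tl M x = 0 := by rw [tl, if_pos h1]
      have e2 : tl M g = g ^ 2 := by rw [tl, if_neg h2]
      rw [e1, e2]
      nlinarith
  · have e1 : tl M x = x ^ 2 := by rw [tl, if_neg h1]
    by_cases h2 : |g| ≤ M
    · have hgM : g = -M := le_antisymm hg (abs_le.1 h2).1
      have e2 : tl M g = 0 := by rw [tl, if_pos h2]
      rw [e1, e2]
      nlinarith
    · have e2 : tl M g = g ^ 2 := by rw [tl, if_neg h2]
      rw [e1, e2]
      have : 0 ≤ x * g := mul_nonneg_of_nonpos_of_nonpos (by linarith) (by linarith)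
      nlinarith

lemma high_case {M x g : ℝ} (hM : 0 < M) (hx : M < x) (hg : M < g) :
    (x - g) ^ 2 ≤ tl M x + tl M g := by
  have h1 : ¬ |x| ≤ M := fun h => absurd (abs_le.1 h).2 (not_le.2 hx)
  have h2 : ¬ |g| ≤ M := fun h => absurd (abs_le.1 h).2 (not_le.2 hg)
  rw [tl, tl, if_neg h1, if_neg h2]
  have : 0 ≤ x * g := mul_nonneg (by linarith) (by linarith)
  nlinarith

/-- the grid -/
noncomputable def grid (M h : ℝ) (N : ℕ) : Finset ℝ := (range (N + 1)).image fun k : ℕ => -M + k * h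

lemma mem_grid {M h : ℝ} {N k : ℕ} (hk : k ≤ N) : -M + (k : ℝ) * h ∈ grid M h N :=
  mem_image.2 ⟨k, mem_range.2 (by omega), rfl⟩

lemma mid_case {M h : ℝ} {N : ℕ} (hN : -M + (N : ℝ) * h = M) {x g : ℝ} (hx : -M < x)
    (hx2 : x ≤ M) (hiff : ∀ t ∈ grid M h N, (x ≤ t ↔ g ≤ t)) : |x - g| ≤ h := by
  classical
  have hex : ∃ k : ℕ, x ≤ -M + (k : ℝ) * h := ⟨N, by rw [hN]; exact hx2⟩
  set k := Nat.find hex with hk
  have h1 : x ≤ -M + (k : ℝ) * h := Nat.find_spec hex
  have hkN : k ≤ N := Nat.find_min' hex (by rw [hN]; exact hx2)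
  have hk0 : k ≠ 0 := by
    intro h0
    rw [h0] at h1
    simp only [Nat.cast_zero, zero_mul, add_zero] at h1
    linarith
  obtain ⟨j, hj⟩ := Nat.exists_eq_succ_of_ne_zero hk0
  have h2 : ¬ x ≤ -M + (j : ℝ) * h := Nat.find_min hex (by omega)
  have h3 : g ≤ -M + (k : ℝ) * h := (hiff _ (mem_grid hkN)).1 h1
  have h4 : ¬ g ≤ -M + (j : ℝ) * h := fun h5 => h2 ((hiff _ (mem_grid (by omega))).2 h5)
  have h5 : (k : ℝ) = j + 1 := by rw [hj]; push_cast; ring
  rw [h5] at h1 h3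
  push Not at h2 h4
  rw [abs_le]
  constructor <;> nlinarith

theorem close : S_CLOSE := by
  intro hM δ M hδ hM0
  obtain ⟨N, hN⟩ := exists_nat_gt (2 * M / √δ)
  have hs : 0 < √δ := Real.sqrt_pos.2 hδ
  have hN0 : (0 : ℝ) < N := lt_trans (by positivity) hN
  set h := 2 * M / N with hh
  have hh1 : h ≤ √δ := by
    rw [hh, div_le_iff₀ hN0]
    rw [div_lt_iff₀ hs] at hN
    linarith
  have hh0 : 0 < h := by positivity
  have hNM : -M + (N : ℝ) * h = M := by
    rw [hh]
    field_simp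
    ring
  set T := grid M h N with hT
  refine ⟨T, δ / (8 * M ^ 2 * (T.card + 1)), by positivity, ?_⟩
  intro n x g hx hg hxt hgt
  set κ := δ / (8 * M ^ 2 * (T.card + 1)) with hκ
  have hκ0 : 0 < κ := by positivity
  obtain ⟨σ, B, hB, hσ⟩ := hM n x g T (2 * κ * n) (by
    intro t ht
    have h1 := abs_le.1 (hx t ht)
    have h2 := abs_le.1 (hg t ht)
    rw [abs_le]
    constructor <;> linarith [h1.1, h1.2, h2.1, h2.2])
  refine ⟨σ, ?_⟩
  have hpt : ∀ i, (x i - g (σ i)) ^ 2 ≤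
      δ + 2 * tl M (x i) + 2 * tl M (g (σ i)) + (if i ∈ B then 4 * M ^ 2 else 0) := by
    intro i
    have n1 := tl_nonneg M (x i)
    have n2 := tl_nonneg M (g (σ i))
    by_cases hi : i ∈ B
    · rw [if_pos hi]
      have := all_case hM0 (x i) (g (σ i))
      linarith
    · rw [if_neg hi]
      have hiff := hσ i hi
      have hlo := hiff (-M + ((0 : ℕ) : ℝ) * h) (mem_grid (Nat.zero_le _))
      have hhi := hiff (-M + (N : ℝ) * h) (mem_grid le_rfl)
      simp only [Nat.cast_zero, zero_mul, add_zero] at hlo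
      rw [hNM] at hhi
      rcases le_or_gt (x i) (-M) with hc | hc
      · have := low_case hM0 hc (hlo.1 hc)
        linarith
      · rcases le_or_gt (x i) M with hd | hd
        · have h3 := mid_case hNM hc hd hiff
          have h4 : (x i - g (σ i)) ^ 2 ≤ δ := by
            have h5 : |x i - g (σ i)| ≤ √δ := h3.trans hh1
            have h6 : |x i - g (σ i)| ^ 2 ≤ √δ ^ 2 := pow_le_pow_left₀ (abs_nonneg _) h5 2
            rwa [sq_abs, Real.sq_sqrt hδ.le] at h6
          linarith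
        · have hgM : M < g (σ i) := by
            by_contra hcon
            exact absurd (hhi.2 (not_lt.1 hcon)) (not_le.2 hd)
          have := high_case hM0 hd hgM
          linarith
  have hsum : ∑ i, (x i - g (σ i)) ^ 2 ≤ ∑ i, (δ + 2 * tl M (x i) + 2 * tl M (g (σ i)) +
      (if i ∈ B then 4 * M ^ 2 else 0)) := sum_le_sum fun i _ => hpt i
  have e1 : ∑ i, tl M (g (σ i)) = ∑ i, tl M (g i) := Equiv.sum_comp σ fun i => tl M (g i)
  have e2 : ∑ i : Fin n, (if i ∈ B then 4 * M ^ 2 else 0) = B.card * (4 * M ^ 2) := by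
    rw [sum_ite_mem, univ_inter, sum_const, nsmul_eq_mul]
  rw [sum_add_distrib, sum_add_distrib, sum_add_distrib, ← mul_sum, ← mul_sum, e1, e2, sum_const,
    card_univ, Fintype.card_fin, nsmul_eq_mul] at hsum
  have hn0 : (0 : ℝ) ≤ n := Nat.cast_nonneg _
  have hB2 : (B.card : ℝ) * (4 * M ^ 2) ≤ δ * n := by
    have hc0 : (0 : ℝ) ≤ T.card := Nat.cast_nonneg _
    have h1 : T.card * (2 * κ) * (4 * M ^ 2) ≤ δ := by
      rw [hκ]
      have : (T.card : ℝ) * (2 * (δ / (8 * M ^ 2 * (T.card + 1)))) * (4 * M ^ 2) =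
          δ * (T.card / (T.card + 1)) := by
        field_simp
        ring
      rw [this]
      have h2 : (T.card : ℝ) / (T.card + 1) ≤ 1 := by
        rw [div_le_one (by positivity)]
        linarith
      nlinarith
    calc (B.card : ℝ) * (4 * M ^ 2) ≤ (T.card * (2 * κ * n)) * (4 * M ^ 2) := by gcongr
      _ = (T.card * (2 * κ) * (4 * M ^ 2)) * n := by ring
      _ ≤ _ := mul_le_mul_of_nonneg_right h1 hn0
  have hδn : 0 ≤ δ * n := by positivity
  linarith

end Pool.Agent.P8H69.PK
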